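import Pool.Agent.helper28.JetsMain

set_option autoImplicit false

open Filter Topology Set

namespace Pool.Agent.Results.MP_85663e_an.ZobinCounterexample

/-- The ideal `I^m(E)` of `m`-jets at the origin of `C^m` functions vanishing on `E`, a jet being
recorded by its derivatives at `0` of order `0, 1, ..., m`. -/
def jetIdeal (n m : ℕ) (E : Set (Fin n → ℝ)) :
    Set ((j : Fin (m + 1)) → ContinuousMultilinearMap ℝ (fun _ : Fin j => (Fin n → ℝ)) ℝ) :=
  {P | ∃ F : (Fin n → ℝ) → ℝ, ContDiff ℝ m F ∧ (∀ x ∈ E, F x = 0) ∧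
    ∀ j : Fin (m + 1), P j = iteratedFDeriv ℝ (j : ℕ) F 0}

/-- Semi-algebraic subsets of `ℝ^n`: finite unions of sets `{f = 0, g > 0 for g in a finite set}`
with polynomials `f`, `g`. -/
def IsSemialgebraic (n : ℕ) (V : Set (Fin n → ℝ)) : Prop :=
  ∃ (k : ℕ) (f : Fin k → MvPolynomial (Fin n) ℝ) (g : Fin k → Finset (MvPolynomial (Fin n) ℝ)),
    V = ⋃ i : Fin k, {x : Fin n → ℝ | MvPolynomial.eval x (f i) = 0 ∧
      ∀ p ∈ g i, 0 < MvPolynomial.eval x p}

lemma isClosed_Eset : IsClosed Pool.Agent.helper28.Jets.Eset := by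
  rw [← isOpen_compl_iff, isOpen_iff_mem_nhds]
  intro v hv
  have hcont : ∀ x : ℝ, x ≠ 0 → ContinuousAt Pool.Agent.helper28.Jets.u x := fun x hx =>
    Real.continuous_sin.continuousAt.comp (Real.continuousAt_log hx)
  by_cases h0 : v 0 = 0
  · -- then `v 1 ≠ 0`
    have h1 : v 1 ≠ 0 := by
      intro h1
      apply hv
      constructor
      · rw [h1, h0]; simp
      · rw [h0]; simp [Pool.Agent.helper28.Jets.u]
    have hpos : 0 < |v 1| := abs_pos.mpr h1
    have e1 : ∀ᶠ w : Fin 2 → ℝ in 𝓝 v, (w 0) ^ 2 < |w 1| := by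
      have c1 : Tendsto (fun w : Fin 2 → ℝ => (w 0) ^ 2) (𝓝 v) (𝓝 ((v 0) ^ 2)) :=
        ((continuous_apply (0 : Fin 2)).pow 2).tendsto v
      have c2 : Tendsto (fun w : Fin 2 → ℝ => |w 1|) (𝓝 v) (𝓝 |v 1|) :=
        ((continuous_apply (1 : Fin 2)).abs).tendsto v
      refine c1.eventually_lt c2 ?_
      rw [h0]; simpa using hpos
    filter_upwards [e1] with w hw hwE
    have h2 := hwE.1
    rw [h2, abs_mul, abs_of_nonneg (sq_nonneg (w 0))] at hw
    have h3 := Pool.Agent.helper28.Jets.abs_u_le (w 0)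
    nlinarith [sq_nonneg (w 0)]
  · have hu : ContinuousAt (fun w : Fin 2 → ℝ => Pool.Agent.helper28.Jets.u (w 0)) v :=
      ContinuousAt.comp (f := fun w : Fin 2 → ℝ => w 0) (hcont (v 0) h0)
        (continuous_apply (0 : Fin 2)).continuousAt
    have hx : ContinuousAt (fun w : Fin 2 → ℝ => w 0) v := (continuous_apply (0 : Fin 2)).continuousAt
    have hy : ContinuousAt (fun w : Fin 2 → ℝ => w 1) v := (continuous_apply (1 : Fin 2)).continuousAt
    have c1 : ContinuousAt (fun w : Fin 2 → ℝ => w 1 - (w 0) ^ 2 *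
        Pool.Agent.helper28.Jets.u (w 0)) v := hy.sub ((hx.pow 2).mul hu)
    have c2 : ContinuousAt (fun w : Fin 2 → ℝ => Pool.Agent.helper28.Jets.u (w 0) *
        (Pool.Agent.helper28.Jets.u (w 0) - w 0)) v := hu.mul (hu.sub hx)
    by_cases h1 : v 1 - (v 0) ^ 2 * Pool.Agent.helper28.Jets.u (v 0) = 0
    · have h2 : Pool.Agent.helper28.Jets.u (v 0) *
          (Pool.Agent.helper28.Jets.u (v 0) - v 0) ≠ 0 := fun h2 => hv ⟨by linarith, h2⟩
      filter_upwards [c2.eventually_ne h2] with w hw hwE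
      exact hw hwE.2
    · filter_upwards [c1.eventually_ne h1] with w hw hwE
      apply hw
      rw [hwE.1]
      ring

/-- There is a closed set `E ∋ 0` in the plane such that `I^4(E)` is not `I^4(V)` for any
semi-algebraic set `V ∋ 0`. -/
theorem result : ∃ E : Set (Fin 2 → ℝ), IsClosed E ∧ (0 : Fin 2 → ℝ) ∈ E ∧
    ∀ V : Set (Fin 2 → ℝ), IsSemialgebraic 2 V → (0 : Fin 2 → ℝ) ∈ V →
      jetIdeal 2 4 V ≠ jetIdeal 2 4 E := by
  refine ⟨Pool.Agent.helper28.Jets.Eset, isClosed_Eset,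
    Pool.Agent.helper28.Jets.zero_mem_Eset, fun V hV h0 heq => ?_⟩
  apply Pool.Agent.helper28.Jets.no_semialgebraic
  refine ⟨V, hV, h0, ?_, ?_⟩
  · intro F hF hz
    have h1 : (fun j : Fin (4 + 1) => iteratedFDeriv ℝ (j : ℕ) F 0) ∈ jetIdeal 2 4
        Pool.Agent.helper28.Jets.Eset := ⟨F, by exact_mod_cast hF, hz, fun j => rfl⟩
    rw [← heq] at h1
    obtain ⟨G, hG, hzG, hj⟩ := h1
    exact ⟨G, by exact_mod_cast hG, hzG, fun j hj' => (hj ⟨j, by omega⟩).symm⟩
  · intro G hG hz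
    have h1 : (fun j : Fin (4 + 1) => iteratedFDeriv ℝ (j : ℕ) G 0) ∈ jetIdeal 2 4 V :=
      ⟨G, by exact_mod_cast hG, hz, fun j => rfl⟩
    rw [heq] at h1
    obtain ⟨F, hF, hzF, hj⟩ := h1
    exact ⟨F, by exact_mod_cast hF, hzF, fun j hj' => (hj ⟨j, by omega⟩).symm⟩

end Pool.Agent.Results.MP_85663e_an.ZobinCounterexample
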